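import Pool.Agent.H73.DA.Stm

set_option autoImplicit false

/-! Stub IBP of project DA (helper73): integration by parts on a quadrant. -/

namespace Pool.Agent.H15DA

open MeasureTheory Set

theorem ibp : Pool.Agent.H73.DA.S_IBP := by
  intro n S j u u' hu hc hint hS
  -- a large radius
  obtain ⟨R0, hR0⟩ := hc.isCompact.isBounded.subset_closedBall (0 : Fin (n + 1) → ℝ)
  set R : ℝ := |R0| + 1 with hR
  have hRpos : 0 < R := by positivity
  have hout : ∀ x : Fin (n + 1) → ℝ, (∃ i, R ≤ |x i|) → x ∉ tsupport u := by
    rintro x ⟨i, hi⟩ hx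
    have h1 := hR0 hx
    rw [mem_closedBall_zero_iff] at h1
    have h2 : |x i| ≤ ‖x‖ := norm_le_pi_norm x i
    have h3 := le_abs_self R0
    linarith
  have hu0 : ∀ x : Fin (n + 1) → ℝ, (∃ i, R ≤ |x i|) → u x = 0 := fun x hx =>
    image_eq_zero_of_notMem_tsupport (hout x hx)
  have hu'0 : ∀ x : Fin (n + 1) → ℝ, (∃ i, R ≤ |x i|) → u' x = 0 := by
    intro x hx
    have h1 : x ∉ tsupport (fderiv ℝ u) := fun h => hout x hx (tsupport_fderiv_subset ℝ h)
    have h2 : fderiv ℝ u x = 0 := image_eq_zero_of_notMem_tsupport h1
    rw [← (hu x).fderiv, h2]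
  set a : Fin (n + 1) → ℝ := fun i => if i ∈ S then 0 else -R with ha
  set b : Fin (n + 1) → ℝ := fun _ => R with hb
  have hle : a ≤ b := by
    intro i
    simp only [ha, hb]
    split_ifs
    · exact hRpos.le
    · linarith
  have hcont : Continuous u := by
    rw [continuous_iff_continuousAt]
    exact fun x => (hu x).continuousAt
  have hdiv := integral_divergence_of_hasFDerivAt_off_countable' a b hle
    (fun i x => if i = j then u x else 0)
    (fun i x => if i = j then u' x else 0) ∅ countable_empty
    (by
      intro i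
      by_cases h : i = j
      · simp only [h, if_true]; exact hcont.continuousOn
      · simp only [h, if_false]; exact continuousOn_const)
    (by
      intro x _ i
      by_cases h : i = j
      · simp only [h, if_true]; exact hu x
      · simp only [h, if_false]; exact hasFDerivAt_const _ _)
    (by
      have : (fun x : Fin (n + 1) → ℝ => ∑ i, (if i = j then u' x else 0) (Pi.single i 1)) =
          fun x => u' x (Pi.single j 1) := by
        funext x
        rw [Finset.sum_eq_single j]
        · simp
        · intro i _ hi; simp [hi]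
        · intro h; exact absurd (Finset.mem_univ j) h
      rw [this]
      exact hint.integrableOn)
  have hL : (fun x : Fin (n + 1) → ℝ => ∑ i, (if i = j then u' x else 0) (Pi.single i 1)) =
          fun x => u' x (Pi.single j 1) := by
    funext x
    rw [Finset.sum_eq_single j]
    · simp
    · intro i _ hi; simp [hi]
    · intro h; exact absurd (Finset.mem_univ j) h
  have hfront : ∀ x : Fin n → ℝ, u (j.insertNth (b j) x) = 0 := by
    intro x
    refine hu0 _ ⟨j, ?_⟩
    simp only [Fin.insertNth_apply_same, hb]
    exact le_abs_self R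
  have hback : ∀ x : Fin n → ℝ, u (j.insertNth (a j) x) = 0 := by
    intro x
    by_cases hj : j ∈ S
    · refine hS hj _ ?_
      simp only [Fin.insertNth_apply_same, ha, hj, if_true]
    · refine hu0 _ ⟨j, ?_⟩
      simp only [Fin.insertNth_apply_same, ha, hj, if_false, abs_neg]
      exact le_abs_self R
  have hzero : ∫ x in Icc a b, u' x (Pi.single j 1) = 0 := by
    have h1 : (∫ x in Icc a b, ∑ i, (if i = j then u' x else 0) (Pi.single i 1)) =
        ∫ x in Icc a b, u' x (Pi.single j 1) := by rw [hL]
    rw [← h1, hdiv]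
    refine Finset.sum_eq_zero fun i _ => ?_
    by_cases h : i = j
    · subst h
      simp only [if_true, hfront, hback, integral_zero, sub_self]
    · simp only [h, if_false, integral_zero, sub_self]
  have hQ : (pi univ fun i => Ioo (a i) (b i)) =ᵐ[volume] Icc a b :=
    Measure.univ_pi_Ioo_ae_eq_Icc
  have hmeas : MeasurableSet {x : Fin (n + 1) → ℝ | ∀ i ∈ S, 0 < x i} := by
    have : {x : Fin (n + 1) → ℝ | ∀ i ∈ S, 0 < x i} =
        ⋂ i ∈ S, {x : Fin (n + 1) → ℝ | 0 < x i} := by
      ext x; simp
    rw [this]
    exact Finset.measurableSet_biInter S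
      (fun i _ => measurableSet_lt measurable_const (measurable_pi_apply i))
  have hsub : (pi univ fun i => Ioo (a i) (b i)) ⊆ {x : Fin (n + 1) → ℝ | ∀ i ∈ S, 0 < x i} := by
    intro x hx i hi
    have h1 := (hx i (mem_univ i)).1
    simp only [ha, hi, if_true] at h1
    exact h1
  rw [setIntegral_eq_of_subset_of_forall_sdiff_eq_zero hmeas hsub, setIntegral_congr_set hQ, hzero]
  rintro x ⟨hx1, hx2⟩
  have h3 : ∃ i, R ≤ |x i| := by
    by_contra hcon
    push Not at hcon
    refine hx2 fun i _ => ?_
    have h4 := abs_lt.1 (hcon i)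
    refine ⟨?_, h4.2⟩
    by_cases hi : i ∈ S
    · simp only [ha, hi, if_true]; exact hx1 i hi
    · simp only [ha, hi, if_false]; exact h4.1
  rw [hu'0 x h3]
  rfl

end Pool.Agent.H15DA
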